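import Pool.Agent.Q145.PQ.Stm
import Pool.Agent.Q18.LS.HSB

/-!
# Project PQ (helper145), job JPB (helper150; adapted from `Pool/Agent/Q18/LS/HSB.lean` of helper18)
-/

set_option autoImplicit false

namespace Pool.Agent.Q150.PQ

open Finset Filter
open Pool.Agent.Q145.SZ
open Pool.Agent.Q145.LS (uni th)
open Pool.Agent.Q145.LQ (JP)
open Pool.Agent.Q261.SZ (dvd_dst cnt_le exp_quad)
open Pool.Agent.Q18.LS (wt_nn wt_le2 totient_prod PW_coprime PW_le_exp numeric)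

/-- `(p/(p-1))^K - 1` -/
noncomputable def g0 (K p : ℕ) : ℝ := ((p : ℝ) / ((p : ℝ) - 1)) ^ K - 1

/-- `2 ((p/(p-1))^K - 1)` -/
noncomputable def GG (K p : ℕ) : ℝ := 2 * g0 K p

theorem g0_nonneg {K p : ℕ} (hp : 2 ≤ p) : 0 ≤ g0 K p := by
  have h : (2 : ℝ) ≤ p := by exact_mod_cast hp
  unfold g0
  have h1 : 1 ≤ (p : ℝ) / ((p : ℝ) - 1) := by
    rw [one_le_div (by linarith)]
    linarith
  linarith [one_le_pow₀ h1 (n := K)]

theorem GG_nonneg {K p : ℕ} (hp : 2 ≤ p) : 0 ≤ GG K p := by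
  unfold GG
  linarith [g0_nonneg (K := K) hp]

theorem GG_le {K p : ℕ} (hp : 6 ≤ p) (hK : 8 * K + 1 ≤ p) : GG K p ≤ 4 * K / p := by
  have h6 : (6 : ℝ) ≤ p := by exact_mod_cast hp
  have hKr : 8 * (K : ℝ) + 1 ≤ p := by exact_mod_cast hK
  have hK0 : (0 : ℝ) ≤ K := Nat.cast_nonneg _
  have hp1 : 0 < (p : ℝ) - 1 := by linarith
  obtain ⟨x, hx⟩ : ∃ x : ℝ, x = (K : ℝ) / ((p : ℝ) - 1) := ⟨_, rfl⟩
  have hx0 : 0 ≤ x := by rw [hx]; positivity
  have hx8 : x ≤ 1 / 8 := by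
    rw [hx, div_le_iff₀ hp1]
    linarith
  have h1 : ((p : ℝ) / ((p : ℝ) - 1)) ^ K ≤ Real.exp x := by
    have h2 : (p : ℝ) / ((p : ℝ) - 1) ≤ Real.exp (1 / ((p : ℝ) - 1)) := by
      have h3 := Real.add_one_le_exp (1 / ((p : ℝ) - 1))
      have e : (p : ℝ) / ((p : ℝ) - 1) = 1 / ((p : ℝ) - 1) + 1 := by field_simp; ring
      rw [e]
      exact h3
    calc ((p : ℝ) / ((p : ℝ) - 1)) ^ K ≤ Real.exp (1 / ((p : ℝ) - 1)) ^ K := by
          apply pow_le_pow_left₀ (by positivity) h2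
      _ = Real.exp x := by
          rw [← Real.exp_nat_mul, hx]
          congr 1
          ring
  have h2 := exp_quad hx0 (by linarith : x ≤ 1)
  have h3 : GG K p ≤ 9 / 4 * x := by
    unfold GG g0
    nlinarith
  refine h3.trans ?_
  rw [hx, mul_div_assoc', div_le_div_iff₀ hp1 (by linarith)]
  nlinarith

/-- the sum over the pairs with `e ∣ n² - m²` -/
noncomputable def SQ {W : ℕ} [NeZero W] (X : ℕ) (c d : ZMod W) (e : ℕ) : ℝ :=
  ∑ n ∈ (Ioc X (2 * X)).filter (fun n : ℕ => (n : ZMod W) = c),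
    ∑ m ∈ (Ioc X (2 * X)).filter (fun m : ℕ => (m : ZMod W) = d ∧ m ≠ n),
      wt n * wt m * (if e ∣ dst (n ^ 2) (m ^ 2) then 1 else 0)

theorem SQ_one {W : ℕ} [NeZero W] (X : ℕ) (c d : ZMod W) : SQ X c d 1 ≤ th X c * th X d := by
  unfold SQ th
  rw [sum_mul]
  refine sum_le_sum fun n _ => ?_
  rw [mul_sum]
  have h1 : ∑ m ∈ (Ioc X (2 * X)).filter (fun m : ℕ => (m : ZMod W) = d ∧ m ≠ n),
      wt n * wt m * (if 1 ∣ dst (n ^ 2) (m ^ 2) then (1 : ℝ) else 0) =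
      ∑ m ∈ (Ioc X (2 * X)).filter (fun m : ℕ => (m : ZMod W) = d ∧ m ≠ n), wt n * wt m :=
    sum_congr rfl fun m _ => by rw [if_pos (one_dvd _), mul_one]
  rw [h1]
  refine sum_le_sum_of_subset_of_nonneg (fun m hm => ?_) fun m _ _ => mul_nonneg (wt_nn n) (wt_nn m)
  rw [mem_filter] at hm ⊢
  exact ⟨hm.1, hm.2.1⟩

theorem JP_pow (z Z K h : ℕ) (hh : 0 < h) (hZ : h ≤ Z) :
    JP z h ^ K = ∑ E ∈ ((Ioc z Z).filter Nat.Prime).powerset,
        if (∏ p ∈ E, p) ∣ h then ∏ p ∈ E, g0 K p else 0 := by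
  classical
  have e1 : JP z h ^ K = ∏ p ∈ h.primeFactors.filter (fun p => z < p), (1 + g0 K p) := by
    unfold JP g0
    rw [← prod_pow]
    refine prod_congr rfl fun p _ => ?_
    ring
  rw [e1, prod_one_add, ← sum_filter]
  refine sum_congr ?_ fun _ _ => rfl
  ext E
  rw [mem_powerset, mem_filter, mem_powerset]
  constructor
  · intro hE
    have hE' : ∀ p ∈ E, p.Prime ∧ p ∣ h ∧ z < p := by
      intro p hp
      have h1 := hE hp
      rw [mem_filter, Nat.mem_primeFactors] at h1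
      exact ⟨h1.1.1, h1.1.2.1, h1.2⟩
    refine ⟨fun p hp => ?_, ?_⟩
    · rw [mem_filter, mem_Ioc]
      exact ⟨⟨(hE' p hp).2.2, (Nat.le_of_dvd hh (hE' p hp).2.1).trans hZ⟩, (hE' p hp).1⟩
    · exact Finset.prod_primes_dvd h (fun p hp => (hE' p hp).1.prime) (fun p hp => (hE' p hp).2.1)
  · rintro ⟨h1, h2⟩ p hp
    have h3 := h1 hp
    rw [mem_filter, mem_Ioc] at h3
    rw [mem_filter, Nat.mem_primeFactors]
    exact ⟨⟨h3.2, (dvd_prod_of_mem _ hp).trans h2, hh.ne'⟩, h3.1.1⟩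

theorem dst_bd {X n m : ℕ} (hn : n ∈ Ioc X (2 * X)) (hm : m ∈ Ioc X (2 * X)) (hne : m ≠ n) :
    0 < dst (n ^ 2) (m ^ 2) ∧ dst (n ^ 2) (m ^ 2) ≤ 4 * X ^ 2 := by
  rw [mem_Ioc] at hn hm
  have h1 : n ^ 2 ≤ 4 * X ^ 2 := by nlinarith
  have h2 : m ^ 2 ≤ 4 * X ^ 2 := by nlinarith
  have h3 : n ^ 2 ≠ m ^ 2 := by
    intro h
    exact hne (Nat.pow_left_injective (n := 2) (by norm_num) h).symm
  unfold dst
  omega

theorem total_le {W : ℕ} [NeZero W] (z X K : ℕ) (c d : ZMod W) :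
    ∑ n ∈ (Ioc X (2 * X)).filter (fun n : ℕ => (n : ZMod W) = c),
      ∑ m ∈ (Ioc X (2 * X)).filter (fun m : ℕ => (m : ZMod W) = d ∧ m ≠ n),
        wt n * wt m * JP z (dst (n ^ 2) (m ^ 2)) ^ K =
      ∑ E ∈ ((Ioc z (4 * X ^ 2)).filter Nat.Prime).powerset, (∏ p ∈ E, g0 K p) * SQ X c d (∏ p ∈ E, p) := by
  calc _ = ∑ n ∈ (Ioc X (2 * X)).filter (fun n : ℕ => (n : ZMod W) = c),
      ∑ m ∈ (Ioc X (2 * X)).filter (fun m : ℕ => (m : ZMod W) = d ∧ m ≠ n),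
        ∑ E ∈ ((Ioc z (4 * X ^ 2)).filter Nat.Prime).powerset, (∏ p ∈ E, g0 K p) *
          (wt n * wt m * (if (∏ p ∈ E, p) ∣ dst (n ^ 2) (m ^ 2) then 1 else 0)) := by
        refine sum_congr rfl fun n hn => sum_congr rfl fun m hm => ?_
        have h1 := dst_bd (mem_filter.1 hn).1 (mem_filter.1 hm).1 (mem_filter.1 hm).2.2
        rw [JP_pow z (4 * X ^ 2) K _ h1.1 h1.2, mul_sum]
        refine sum_congr rfl fun E _ => ?_
        split_ifs
        · ring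
        · ring
    _ = ∑ n ∈ (Ioc X (2 * X)).filter (fun n : ℕ => (n : ZMod W) = c),
        ∑ E ∈ ((Ioc z (4 * X ^ 2)).filter Nat.Prime).powerset,
      ∑ m ∈ (Ioc X (2 * X)).filter (fun m : ℕ => (m : ZMod W) = d ∧ m ≠ n), (∏ p ∈ E, g0 K p) *
          (wt n * wt m * (if (∏ p ∈ E, p) ∣ dst (n ^ 2) (m ^ 2) then 1 else 0)) :=
        sum_congr rfl fun n _ => sum_comm
    _ = _ := by
        rw [sum_comm]
        refine sum_congr rfl fun E _ => ?_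
        unfold SQ
        simp only [mul_sum]

/-- the pattern of the signs determines the class -/
theorem cls_eq {E : Finset ℕ} (hE : ∀ p ∈ E, p.Prime) {n m m' : ℕ}
    (h : (∏ p ∈ E, p) ∣ dst (n ^ 2) (m ^ 2)) (h' : (∏ p ∈ E, p) ∣ dst (n ^ 2) (m' ^ 2))
    (hT : E.filter (fun p => m ≡ n [MOD p]) = E.filter (fun p => m' ≡ n [MOD p])) :
    m ≡ m' [MOD ∏ p ∈ E, p] := by
  rw [← dvd_dst]
  refine Finset.prod_primes_dvd _ (fun p hp => (hE p hp).prime) (fun p hp => ?_)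
  rw [dvd_dst]
  have hpp := hE p hp
  have key : ∀ k : ℕ, (∏ p ∈ E, p) ∣ dst (n ^ 2) (k ^ 2) → ¬ k ≡ n [MOD p] → (p : ℤ) ∣ (k : ℤ) + n := by
    intro k hk hkn
    have h1 : p ∣ dst (n ^ 2) (k ^ 2) := (dvd_prod_of_mem _ hp).trans hk
    rw [dvd_dst] at h1
    have h2 : (p : ℤ) ∣ ((k : ℤ) - n) * (k + n) := by
      have h3 := (Nat.modEq_iff_dvd.1 h1)
      push_cast at h3
      have e : ((k : ℤ) - n) * (k + n) = (k : ℤ) ^ 2 - (n : ℤ) ^ 2 := by ring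
      rw [e]
      exact h3
    rcases (Nat.prime_iff_prime_int.1 hpp).dvd_or_dvd h2 with h3 | h3
    · exfalso
      apply hkn
      exact (Nat.modEq_iff_dvd.2 h3).symm
    · exact h3
  by_cases hm : m ≡ n [MOD p]
  · have h1 : p ∈ E.filter (fun p => m ≡ n [MOD p]) := mem_filter.2 ⟨hp, hm⟩
    rw [hT, mem_filter] at h1
    exact hm.trans h1.2.symm
  · have hm' : ¬ m' ≡ n [MOD p] := by
      intro h1
      apply hm
      have h2 : p ∈ E.filter (fun p => m' ≡ n [MOD p]) := mem_filter.2 ⟨hp, h1⟩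
      rw [← hT, mem_filter] at h2
      exact h2.2
    have h1 := key m h hm
    have h2 := key m' h' hm'
    rw [Nat.modEq_iff_dvd]
    have h3 := dvd_sub h2 h1
    have e : ((m' : ℤ) + n) - (m + n) = m' - m := by ring
    rwa [e] at h3

/-- a bound for each class gives a bound for the sum -/
theorem fib_le {W : ℕ} [NeZero W] {X : ℕ} {E : Finset ℕ} (hE : ∀ p ∈ E, p.Prime) (hWe : W.Coprime (∏ p ∈ E, p))
    (d : ZMod W) (n : ℕ) (f : ℕ → ℝ) (b : ℝ)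
    (hb : ∀ S : Finset ℕ, S ⊆ Ioc X (2 * X) → (∀ a ∈ S, ∀ a' ∈ S, a ≡ a' [MOD W * ∏ p ∈ E, p]) →
      ∑ m ∈ S, f m ≤ b) :
    ∑ m ∈ ((Ioc X (2 * X)).filter (fun m : ℕ => (m : ZMod W) = d ∧ m ≠ n)).filter
      (fun m => (∏ p ∈ E, p) ∣ dst (n ^ 2) (m ^ 2)), f m ≤ 2 ^ E.card * b := by
  classical
  rw [← sum_fiberwise_of_maps_to (t := E.powerset) (g := fun m => E.filter (fun p => m ≡ n [MOD p]))
    (fun m _ => mem_powerset.2 (filter_subset _ _))]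
  have h1 : ∀ T ∈ E.powerset, ∑ m ∈ (((Ioc X (2 * X)).filter (fun m : ℕ => (m : ZMod W) = d ∧ m ≠ n)).filter
      (fun m => (∏ p ∈ E, p) ∣ dst (n ^ 2) (m ^ 2))).filter (fun m => E.filter (fun p => m ≡ n [MOD p]) = T), f m ≤ b := by
    intro T _
    apply hb
    · intro m hm
      rw [mem_filter, mem_filter, mem_filter] at hm
      exact hm.1.1.1
    · intro m hm m' hm'
      rw [mem_filter, mem_filter, mem_filter] at hm hm'
      rw [← Nat.modEq_and_modEq_iff_modEq_mul hWe]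
      refine ⟨?_, cls_eq hE hm.1.2 hm'.1.2 (hm.2.trans hm'.2.symm)⟩
      rw [← ZMod.natCast_eq_natCast_iff, hm.1.1.2.1, hm'.1.1.2.1]
  refine (sum_le_card_nsmul _ _ _ h1).trans (le_of_eq ?_)
  rw [card_powerset, nsmul_eq_mul]
  push_cast
  rfl

/-- small moduli -/
theorem SQ_small {W : ℕ} [NeZero W] (X : ℕ) {E : Finset ℕ} (hE : ∀ p ∈ E, p.Prime) (B : ℝ)
    (hWe : W.Coprime (∏ p ∈ E, p))
    (hB : ∀ q : ℕ, 1 ≤ q → q ^ 2 ≤ X → ∀ r : ℕ,
      ∑ n ∈ (Ioc X (2 * X)).filter (fun n : ℕ => n ≡ r [MOD q]), wt n ≤ B * X / Nat.totient q)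
    (hB0 : 0 ≤ B) (hX : (W * ∏ p ∈ E, p) ^ 2 ≤ X) (c d : ZMod W) :
    SQ X c d (∏ p ∈ E, p) ≤
      2 ^ E.card * (B ^ 2 * ((X : ℝ) / Nat.totient W) ^ 2 * (1 / Nat.totient (∏ p ∈ E, p))) := by
  have hW0 : 0 < W := Nat.pos_of_ne_zero (NeZero.ne W)
  have he : 0 < ∏ p ∈ E, p := prod_pos fun p hp => (hE p hp).pos
  have hcl : ∀ q : ℕ, 1 ≤ q → q ^ 2 ≤ X → ∀ S : Finset ℕ, S ⊆ Ioc X (2 * X) →
      (∀ a ∈ S, ∀ a' ∈ S, a ≡ a' [MOD q]) → ∑ m ∈ S, wt m ≤ B * X / Nat.totient q := by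
    intro q hq hqX S hS hSc
    rcases S.eq_empty_or_nonempty with h0 | ⟨m₀, hm₀⟩
    · rw [h0, sum_empty]
      positivity
    · refine le_trans (sum_le_sum_of_subset_of_nonneg ?_ fun m _ _ => wt_nn m) (hB q hq hqX m₀)
      intro m hm
      rw [mem_filter]
      exact ⟨hS hm, hSc m hm m₀ hm₀⟩
  have hin : ∀ n : ℕ, ∑ m ∈ (Ioc X (2 * X)).filter (fun m : ℕ => (m : ZMod W) = d ∧ m ≠ n),
      wt m * (if (∏ p ∈ E, p) ∣ dst (n ^ 2) (m ^ 2) then 1 else 0) ≤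
        2 ^ E.card * (B * X / Nat.totient (W * ∏ p ∈ E, p)) := by
    intro n
    have e1 : ∑ m ∈ (Ioc X (2 * X)).filter (fun m : ℕ => (m : ZMod W) = d ∧ m ≠ n),
      wt m * (if (∏ p ∈ E, p) ∣ dst (n ^ 2) (m ^ 2) then 1 else 0) = ∑ m ∈ ((Ioc X (2 * X)).filter
        (fun m : ℕ => (m : ZMod W) = d ∧ m ≠ n)).filter (fun m => (∏ p ∈ E, p) ∣ dst (n ^ 2) (m ^ 2)), wt m := by
      rw [sum_filter (fun m => (∏ p ∈ E, p) ∣ dst (n ^ 2) (m ^ 2))]
      refine sum_congr rfl fun m _ => ?_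
      split_ifs
      · rw [mul_one]
      · rw [mul_zero]
    rw [e1]
    exact fib_le hE hWe d n wt _ (hcl _ (Nat.mul_pos hW0 he) hX)
  have hout : ∑ n ∈ (Ioc X (2 * X)).filter (fun n : ℕ => (n : ZMod W) = c), wt n ≤
      B * X / Nat.totient W := by
    have h2 : W ^ 2 ≤ X := by
      refine le_trans ?_ hX
      exact Nat.pow_le_pow_left (Nat.le_mul_of_pos_right W he) 2
    refine hcl W hW0 h2 _ (filter_subset _ _) fun a ha a' ha' => ?_
    rw [mem_filter] at ha ha'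
    rw [← ZMod.natCast_eq_natCast_iff, ha.2, ha'.2]
  unfold SQ
  calc _ = ∑ n ∈ (Ioc X (2 * X)).filter (fun n : ℕ => (n : ZMod W) = c), wt n *
      ∑ m ∈ (Ioc X (2 * X)).filter (fun m : ℕ => (m : ZMod W) = d ∧ m ≠ n),
      wt m * (if (∏ p ∈ E, p) ∣ dst (n ^ 2) (m ^ 2) then 1 else 0) := by
        refine sum_congr rfl fun n _ => ?_
        rw [mul_sum]
        refine sum_congr rfl fun m _ => ?_
        ring
    _ ≤ ∑ n ∈ (Ioc X (2 * X)).filter (fun n : ℕ => (n : ZMod W) = c), wt n *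
      (2 ^ E.card * (B * X / Nat.totient (W * ∏ p ∈ E, p))) := sum_le_sum fun n _ =>
        mul_le_mul_of_nonneg_left (hin n) (wt_nn n)
    _ = (∑ n ∈ (Ioc X (2 * X)).filter (fun n : ℕ => (n : ZMod W) = c), wt n) *
      (2 ^ E.card * (B * X / Nat.totient (W * ∏ p ∈ E, p))) := by rw [sum_mul]
    _ ≤ (B * X / Nat.totient W) * (2 ^ E.card * (B * X / Nat.totient (W * ∏ p ∈ E, p))) := by gcongr
    _ = _ := by
        rw [Nat.totient_mul hWe]
        have h1 : (Nat.totient W : ℝ) ≠ 0 := by exact_mod_cast (Nat.totient_pos.2 hW0).ne'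
        have h2 : (Nat.totient (∏ p ∈ E, p) : ℝ) ≠ 0 := by exact_mod_cast (Nat.totient_pos.2 he).ne'
        generalize Nat.totient (∏ p ∈ E, p) = t at *
        push_cast
        field_simp

/-- large moduli -/
theorem SQ_large {W : ℕ} [NeZero W] (X : ℕ) {E : Finset ℕ} (hE : ∀ p ∈ E, p.Prime)
    (hWe : W.Coprime (∏ p ∈ E, p)) (hX2 : 2 ≤ X) (c d : ZMod W) :
    SQ X c d (∏ p ∈ E, p) ≤ 2 ^ E.card * (4 * Real.log X ^ 2 *
      (((X : ℝ) / W + 1) * ((X : ℝ) / (W * (∏ p ∈ E, p : ℕ)) + 1))) := by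
  have hW0 : 0 < W := Nat.pos_of_ne_zero (NeZero.ne W)
  obtain ⟨e, he⟩ : ∃ e : ℕ, e = ∏ p ∈ E, p := ⟨_, rfl⟩
  have he0 : 0 < e := by
    rw [he]
    exact prod_pos fun p hp => (hE p hp).pos
  have hL : 0 ≤ Real.log X := Real.log_nonneg (by exact_mod_cast (show 1 ≤ X by omega))
  have hcard1 : (((Ioc X (2 * X)).filter (fun n : ℕ => (n : ZMod W) = c)).card : ℝ) ≤
      (X : ℝ) / W + 1 := by
    refine cnt_le X W hW0 _ (filter_subset _ _) fun a ha b hb => ?_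
    rw [mem_filter] at ha hb
    rw [← ZMod.natCast_eq_natCast_iff, ha.2, hb.2]
  have hin : ∀ n ∈ (Ioc X (2 * X)).filter (fun n : ℕ => (n : ZMod W) = c),
      ∑ m ∈ (Ioc X (2 * X)).filter (fun m : ℕ => (m : ZMod W) = d ∧ m ≠ n),
      wt n * wt m * (if (∏ p ∈ E, p) ∣ dst (n ^ 2) (m ^ 2) then 1 else 0) ≤
        2 ^ E.card * (4 * Real.log X ^ 2 * ((X : ℝ) / (W * (e : ℕ)) + 1)) := by
    intro n hn
    calc _ ≤ ∑ m ∈ (Ioc X (2 * X)).filter (fun m : ℕ => (m : ZMod W) = d ∧ m ≠ n),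
      (if (∏ p ∈ E, p) ∣ dst (n ^ 2) (m ^ 2) then 4 * Real.log X ^ 2 else 0) := by
          refine sum_le_sum fun m hm => ?_
          split_ifs
          · have h3 := wt_le2 hX2 (mem_filter.1 hn).1
            have h4 := wt_le2 hX2 (mem_filter.1 hm).1
            have h5 := wt_nn n
            have h6 := wt_nn m
            nlinarith
          · rw [mul_zero]
      _ = ∑ m ∈ ((Ioc X (2 * X)).filter (fun m : ℕ => (m : ZMod W) = d ∧ m ≠ n)).filter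
        (fun m => (∏ p ∈ E, p) ∣ dst (n ^ 2) (m ^ 2)), 4 * Real.log X ^ 2 := by
          rw [← sum_filter]
      _ ≤ 2 ^ E.card * (4 * Real.log X ^ 2 * ((X : ℝ) / (W * (e : ℕ)) + 1)) := by
          refine fib_le hE hWe d n (fun _ => 4 * Real.log X ^ 2) _ fun S hS hSc => ?_
          have h2 := cnt_le X (W * ∏ p ∈ E, p) (Nat.mul_pos hW0 (he ▸ he0)) S hS hSc
          rw [← he] at h2
          rw [sum_const, nsmul_eq_mul]
          push_cast at h2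
          calc (S.card : ℝ) * (4 * Real.log X ^ 2) ≤ ((X : ℝ) / (W * e) + 1) * (4 * Real.log X ^ 2) := by gcongr
            _ = _ := by ring
  unfold SQ
  refine (sum_le_card_nsmul _ _ _ hin).trans ?_
  rw [nsmul_eq_mul, ← he]
  calc _ ≤ ((X : ℝ) / W + 1) * (2 ^ E.card * (4 * Real.log X ^ 2 * ((X : ℝ) / (W * e) + 1))) := by gcongr
    _ = _ := by ring

theorem F1 {C' : ℝ} (z X K : ℕ) (hz : 6 ≤ z) (hK : 8 * K ≤ z) (hC0 : 0 < C') (hC' : C' ≤ Real.log z)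
    (hSQ : ∑ p ∈ (Ioc z X).filter Nat.Prime, 1 / (p : ℝ) ^ 2 ≤ C' / ((z : ℝ) * Real.log z)) :
    ∏ p ∈ (Ioc z X).filter Nat.Prime, (1 + GG K p / ((p : ℝ) - 1)) - 1 ≤ 2 * C' / Real.log z := by
  have hPm : ∀ p ∈ (Ioc z X).filter Nat.Prime, 6 ≤ p ∧ 8 * K + 1 ≤ p := by
    intro p hp
    rw [mem_filter, mem_Ioc] at hp
    omega
  have hz0 : (6 : ℝ) ≤ z := by exact_mod_cast hz
  have hlog : 0 < Real.log z := Real.log_pos (by linarith)
  have hKr : 8 * (K : ℝ) ≤ z := by exact_mod_cast hK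
  have hK0 : (0 : ℝ) ≤ K := Nat.cast_nonneg _
  set x : ℝ := ∑ p ∈ (Ioc z X).filter Nat.Prime, 8 * (K : ℝ) * (1 / (p : ℝ) ^ 2) with hx
  have hx0 : 0 ≤ x := sum_nonneg fun p _ => by positivity
  have hsum0 : 0 ≤ ∑ p ∈ (Ioc z X).filter Nat.Prime, 1 / (p : ℝ) ^ 2 :=
    sum_nonneg fun _ _ => by positivity
  have hx1 : x ≤ C' / Real.log z := by
    rw [hx, ← mul_sum]
    calc 8 * (K : ℝ) * ∑ p ∈ (Ioc z X).filter Nat.Prime, 1 / (p : ℝ) ^ 2 ≤
          (z : ℝ) * (C' / ((z : ℝ) * Real.log z)) :=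
            mul_le_mul (by linarith) hSQ hsum0 (by positivity)
      _ = _ := by field_simp
  have hx2 : x ≤ 1 := by
    have : C' / Real.log z ≤ 1 := (div_le_one hlog).2 hC'
    linarith
  have h1 : ∏ p ∈ (Ioc z X).filter Nat.Prime, (1 + GG K p / ((p : ℝ) - 1)) ≤ Real.exp x := by
    rw [hx, Real.exp_sum]
    refine prod_le_prod (fun p hp => ?_) fun p hp => ?_
    · have h6 : (6 : ℝ) ≤ p := by exact_mod_cast (hPm p hp).1
      have := GG_nonneg (K := K) (p := p) (by have := (hPm p hp).1; omega)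
      have h7 : 0 < (p : ℝ) - 1 := by linarith
      positivity
    · have h6 : (6 : ℝ) ≤ p := by exact_mod_cast (hPm p hp).1
      have h7 : 0 < (p : ℝ) - 1 := by linarith
      have h8 := GG_le (hPm p hp).1 (hPm p hp).2
      have h9 : GG K p / ((p : ℝ) - 1) ≤ 8 * (K : ℝ) * (1 / (p : ℝ) ^ 2) := by
        calc GG K p / ((p : ℝ) - 1) ≤ (4 * K / p) / ((p : ℝ) - 1) := by gcongr
          _ ≤ (4 * K / p) / ((p : ℝ) / 2) := by
              gcongr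
              linarith
          _ = _ := by field_simp; ring
      have h10 := Real.add_one_le_exp (8 * (K : ℝ) * (1 / (p : ℝ) ^ 2))
      linarith
  have h2 := exp_quad hx0 hx2
  have h3 : 2 * C' / Real.log z = 2 * (C' / Real.log z) := by ring
  rw [h3]
  nlinarith

theorem F2 {C' : ℝ} (z X K : ℕ) (hz : 6 ≤ z) (hK : 8 * K ≤ z) (hC0 : 0 < C')
    (hSQ : ∑ p ∈ (Ioc z X).filter Nat.Prime, 1 / ((p : ℝ) * √p) ≤ C' / √z) :
    ∏ p ∈ (Ioc z X).filter Nat.Prime, (1 + GG K p / √(p : ℝ)) ≤ Real.exp (C' * z) := by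
  have hPm : ∀ p ∈ (Ioc z X).filter Nat.Prime, 6 ≤ p ∧ 8 * K + 1 ≤ p := by
    intro p hp
    rw [mem_filter, mem_Ioc] at hp
    omega
  have hz0 : (6 : ℝ) ≤ z := by exact_mod_cast hz
  have hKr : 8 * (K : ℝ) ≤ z := by exact_mod_cast hK
  have hK0 : (0 : ℝ) ≤ K := Nat.cast_nonneg _
  have hsum0 : 0 ≤ ∑ p ∈ (Ioc z X).filter Nat.Prime, 1 / ((p : ℝ) * √p) :=
    sum_nonneg fun _ _ => by positivity
  have h1 : ∏ p ∈ (Ioc z X).filter Nat.Prime, (1 + GG K p / √(p : ℝ)) ≤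
      Real.exp (∑ p ∈ (Ioc z X).filter Nat.Prime, 4 * (K : ℝ) * (1 / ((p : ℝ) * √p))) := by
    rw [Real.exp_sum]
    refine prod_le_prod (fun p hp => ?_) fun p hp => ?_
    · have := GG_nonneg (K := K) (p := p) (by have := (hPm p hp).1; omega)
      positivity
    · have h6 : (6 : ℝ) ≤ p := by exact_mod_cast (hPm p hp).1
      have h8 := GG_le (hPm p hp).1 (hPm p hp).2
      have hs : 0 < √(p : ℝ) := Real.sqrt_pos.2 (by linarith)
      have h9 : GG K p / √(p : ℝ) ≤ 4 * (K : ℝ) * (1 / ((p : ℝ) * √p)) := by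
        calc GG K p / √(p : ℝ) ≤ (4 * K / p) / √(p : ℝ) := by gcongr
          _ = _ := by field_simp
      have h10 := Real.add_one_le_exp (4 * (K : ℝ) * (1 / ((p : ℝ) * √p)))
      linarith
  refine h1.trans (Real.exp_le_exp.2 ?_)
  rw [← mul_sum]
  have hs1 : 1 ≤ √(z : ℝ) := by
    rw [Real.one_le_sqrt]
    linarith
  calc 4 * (K : ℝ) * ∑ p ∈ (Ioc z X).filter Nat.Prime, 1 / ((p : ℝ) * √p) ≤
        (z : ℝ) * (C' / √z) := mul_le_mul (by linarith) hSQ hsum0 (by positivity)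
    _ ≤ (z : ℝ) * (C' / 1) := by gcongr
    _ = _ := by ring

theorem F3 {C₂ : ℝ} (z X K : ℕ) (hz : 6 ≤ z) (hK : 8 * K ≤ z) (hC₂ :
    ∑ p ∈ (Icc 1 X).filter Nat.Prime, 1 / (p : ℝ) ≤ Real.log (Real.log X) + C₂)
    (hC : C₂ ≤ Real.log (Real.log X)) (hL : 1 ≤ Real.log X) :
      ∏ p ∈ (Ioc z X).filter Nat.Prime, (1 + GG K p) ≤ Real.log X ^ (8 * K) := by
  have hPm : ∀ p ∈ (Ioc z X).filter Nat.Prime, 6 ≤ p ∧ 8 * K + 1 ≤ p := by
    intro p hp
    rw [mem_filter, mem_Ioc] at hp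
    omega
  have h1 : ∏ p ∈ (Ioc z X).filter Nat.Prime, (1 + GG K p) ≤
      ∏ p ∈ (Ioc z X).filter Nat.Prime, Real.exp (4 * K * (1 / (p : ℝ))) :=
    prod_le_prod (fun p hp => by
      have := GG_nonneg (K := K) (p := p) (by have := (hPm p hp).1; omega)
      linarith) fun p hp => by
        have h2 := GG_le (hPm p hp).1 (hPm p hp).2
        have h3 := Real.add_one_le_exp (4 * (K : ℝ) * (1 / (p : ℝ)))
        have h4 : 4 * (K : ℝ) / p = 4 * (K : ℝ) * (1 / (p : ℝ)) := by ring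
        linarith
  refine h1.trans ?_
  rw [← Real.exp_sum, ← mul_sum]
  have h2 : ∑ p ∈ (Ioc z X).filter Nat.Prime, 1 / (p : ℝ) ≤ 2 * Real.log (Real.log X) := by
    have h3 : ∑ p ∈ (Ioc z X).filter Nat.Prime, 1 / (p : ℝ) ≤
        ∑ p ∈ (Icc 1 X).filter Nat.Prime, 1 / (p : ℝ) := by
      refine sum_le_sum_of_subset_of_nonneg ?_ fun _ _ _ => by positivity
      refine filter_subset_filter _ fun p hp => ?_
      rw [mem_Ioc] at hp
      rw [mem_Icc]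
      omega
    linarith
  have h3 : 4 * (K : ℝ) * ∑ p ∈ (Ioc z X).filter Nat.Prime, 1 / (p : ℝ) ≤
      ((8 * K : ℕ) : ℝ) * Real.log (Real.log X) := by
    push_cast
    calc 4 * (K : ℝ) * ∑ p ∈ (Ioc z X).filter Nat.Prime, 1 / (p : ℝ) ≤
          4 * K * (2 * Real.log (Real.log X)) := by gcongr
      _ = _ := by ring
  refine (Real.exp_le_exp.2 h3).trans (le_of_eq ?_)
  rw [Real.exp_nat_mul, Real.exp_log (by linarith)]

/-- one nonempty set of primes -/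
theorem term_le {W : ℕ} [NeZero W] (z X Z K : ℕ) (hco : ∀ p : ℕ, p.Prime → z < p → W.Coprime p) (B : ℝ) (hz : 6 ≤ z) (hX2 : 2 ≤ X) (hB0 : 0 ≤ B)
    (hB : ∀ q : ℕ, 1 ≤ q → q ^ 2 ≤ X → ∀ r : ℕ,
      ∑ n ∈ (Ioc X (2 * X)).filter (fun n : ℕ => n ≡ r [MOD q]), wt n ≤ B * X / Nat.totient q)
    (c d : ZMod W) (E : Finset ℕ) (hE : E ⊆ (Ioc z Z).filter Nat.Prime) :
    (∏ p ∈ E, g0 K p) * SQ X c d (∏ p ∈ E, p) ≤
      B ^ 2 * ((X : ℝ) / Nat.totient W) ^ 2 * (∏ p ∈ E, GG K p / ((p : ℝ) - 1)) +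
      4 * Real.log X ^ 2 * ((X : ℝ) / W + 1) * (X / (√(W : ℝ) * √√(X : ℝ))) *
        (∏ p ∈ E, GG K p / √(p : ℝ)) +
      4 * Real.log X ^ 2 * ((X : ℝ) / W + 1) * ∏ p ∈ E, GG K p := by
  have hEp : ∀ p ∈ E, p.Prime ∧ 6 ≤ p ∧ z < p := by
    intro p hp
    have := hE hp
    rw [mem_filter, mem_Ioc] at this
    exact ⟨this.2, by omega, this.1.1⟩
  have hEP : ∀ p ∈ E, p.Prime := fun p hp => (hEp p hp).1
  have hGg : ∏ p ∈ E, GG K p = 2 ^ E.card * ∏ p ∈ E, g0 K p := by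
    unfold GG
    rw [prod_mul_distrib, prod_const]
  have hg00 : 0 ≤ ∏ p ∈ E, g0 K p := prod_nonneg fun p hp =>
    g0_nonneg (by have := (hEp p hp).2.1; omega)
  have hsm := fun hs => SQ_small (W := W) X hEP B (Nat.Coprime.prod_right fun p hp =>
    hco p (hEp p hp).1 (hEp p hp).2.2) hB hB0 hs c d
  have hla := SQ_large (W := W) X hEP (Nat.Coprime.prod_right fun p hp =>
    hco p (hEp p hp).1 (hEp p hp).2.2) hX2 c d
  set e := ∏ p ∈ E, p with he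
  have he0 : 0 < e := prod_pos fun p hp => (hEp p hp).1.pos
  have hW0 : 0 < W := Nat.pos_of_ne_zero (NeZero.ne W)
  have hWr : (0 : ℝ) < W := by exact_mod_cast hW0
  have her : (0 : ℝ) < e := by exact_mod_cast he0
  have hXr : (0 : ℝ) < X := by exact_mod_cast (show 0 < X by omega)
  have hg0' : 0 ≤ ∏ p ∈ E, GG K p := prod_nonneg fun p hp =>
    GG_nonneg (by have := (hEp p hp).2.1; omega)
  have ht1 : 0 ≤ B ^ 2 * ((X : ℝ) / Nat.totient W) ^ 2 * (∏ p ∈ E, GG K p / ((p : ℝ) - 1)) := by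
    have : 0 ≤ ∏ p ∈ E, GG K p / ((p : ℝ) - 1) := prod_nonneg fun p hp => by
      have h1 := GG_nonneg (K := K) (p := p) (by have := (hEp p hp).2.1; omega)
      have h2 : (6 : ℝ) ≤ p := by exact_mod_cast (hEp p hp).2.1
      exact div_nonneg h1 (by linarith)
    positivity
  have hg2 : 0 ≤ ∏ p ∈ E, GG K p / √(p : ℝ) := prod_nonneg fun p hp => by
      have h1 := GG_nonneg (K := K) (p := p) (by have := (hEp p hp).2.1; omega)
      positivity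
  have ht2 : 0 ≤ 4 * Real.log X ^ 2 * ((X : ℝ) / W + 1) * (X / (√(W : ℝ) * √√(X : ℝ))) *
        (∏ p ∈ E, GG K p / √(p : ℝ)) := by positivity
  have ht3 : 0 ≤ 4 * Real.log X ^ 2 * ((X : ℝ) / W + 1) * ∏ p ∈ E, GG K p := by positivity
  rcases le_or_gt ((W * e) ^ 2) X with hs | hs
  · have h1 := hsm hs
    have h2 : (∏ p ∈ E, GG K p / ((p : ℝ) - 1)) = (∏ p ∈ E, GG K p) * (1 / Nat.totient e) := by
      rw [prod_div_distrib, he, totient_prod E fun p hp => (hEp p hp).1, mul_one_div]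
      congr 1
      push_cast
      refine prod_congr rfl fun p hp => ?_
      rw [Nat.cast_sub (hEp p hp).1.one_lt.le, Nat.cast_one]
    have h3 := mul_le_mul_of_nonneg_left h1 hg00
    have h4 : (∏ p ∈ E, g0 K p) * (2 ^ E.card * (B ^ 2 * ((X : ℝ) / Nat.totient W) ^ 2 * (1 / Nat.totient e))) =
        B ^ 2 * ((X : ℝ) / Nat.totient W) ^ 2 * (∏ p ∈ E, GG K p / ((p : ℝ) - 1)) := by
      rw [h2, hGg]
      ring
    rw [h4] at h3
    linarith
  · have h1 := hla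
    have h2 : (∏ p ∈ E, GG K p / √(p : ℝ)) = (∏ p ∈ E, GG K p) / √(e : ℝ) := by
      rw [prod_div_distrib, he]
      congr 1
      push_cast
      rw [Real.sqrt_eq_rpow, ← Real.finsetProd_rpow _ _ (fun p _ => Nat.cast_nonneg p)]
      refine prod_congr rfl fun p _ => ?_
      rw [Real.sqrt_eq_rpow]
    rw [h2] at ht2 ⊢
    have hs' : (X : ℝ) ≤ ((W : ℝ) * e) ^ 2 := by exact_mod_cast hs.le
    have h3 : √(X : ℝ) ≤ (W : ℝ) * e := by
      rw [← Real.sqrt_sq (show 0 ≤ (W : ℝ) * e by positivity)]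
      exact Real.sqrt_le_sqrt hs'
    have h4 : √√(X : ℝ) ≤ √(W : ℝ) * √(e : ℝ) := by
      rw [← Real.sqrt_mul hWr.le]
      exact Real.sqrt_le_sqrt h3
    have hq : 0 < √√(X : ℝ) := by positivity
    have hw : 0 < √(W : ℝ) := by positivity
    have hee : 0 < √(e : ℝ) := by positivity
    have h5 : (X : ℝ) / (W * e) ≤ X / (√(W : ℝ) * √√(X : ℝ)) / √(e : ℝ) := by
      rw [div_div, div_le_div_iff_of_pos_left hXr (by positivity) (by positivity)]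
      have h6 : (W : ℝ) * e = (√(W : ℝ) * √(e : ℝ)) * (√(W : ℝ) * √(e : ℝ)) := by
        have a := Real.mul_self_sqrt hWr.le
        have b := Real.mul_self_sqrt her.le
        calc (W : ℝ) * e = (√(W : ℝ) * √(W : ℝ)) * (√(e : ℝ) * √(e : ℝ)) := by rw [a, b]
          _ = _ := by ring
      rw [h6]
      calc √(W : ℝ) * √√(X : ℝ) * √(e : ℝ) = √√(X : ℝ) * (√(W : ℝ) * √(e : ℝ)) := by ring
        _ ≤ _ := by gcongr
    have h7 : SQ X c d e ≤ 2 ^ E.card * (4 * Real.log X ^ 2 * ((X : ℝ) / W + 1) *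
        (X / (√(W : ℝ) * √√(X : ℝ)) / √(e : ℝ) + 1)) := by
      refine h1.trans ?_
      rw [← mul_assoc (4 * Real.log X ^ 2)]
      gcongr
    have h8 := mul_le_mul_of_nonneg_left h7 hg00
    have h9 : (∏ p ∈ E, g0 K p) * (2 ^ E.card * (4 * Real.log X ^ 2 * ((X : ℝ) / W + 1) *
        (X / (√(W : ℝ) * √√(X : ℝ)) / √(e : ℝ) + 1))) =
        4 * Real.log X ^ 2 * ((X : ℝ) / W + 1) * (X / (√(W : ℝ) * √√(X : ℝ))) *
        ((∏ p ∈ E, GG K p) / √(e : ℝ)) +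
      4 * Real.log X ^ 2 * ((X : ℝ) / W + 1) * ∏ p ∈ E, GG K p := by
      rw [hGg]
      field_simp
    linarith

theorem sum_E {W : ℕ} [NeZero W] (z X Z K : ℕ) (hco : ∀ p : ℕ, p.Prime → z < p → W.Coprime p) (B : ℝ) (hz : 6 ≤ z) (hX2 : 2 ≤ X) (hB0 : 0 ≤ B)
    (hB : ∀ q : ℕ, 1 ≤ q → q ^ 2 ≤ X → ∀ r : ℕ,
      ∑ n ∈ (Ioc X (2 * X)).filter (fun n : ℕ => n ≡ r [MOD q]), wt n ≤ B * X / Nat.totient q)
    (c d : ZMod W) :
    ∑ E ∈ ((Ioc z Z).filter Nat.Prime).powerset.erase ∅, (∏ p ∈ E, g0 K p) * SQ X c d (∏ p ∈ E, p) ≤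
      B ^ 2 * ((X : ℝ) / Nat.totient W) ^ 2 * (∏ p ∈ (Ioc z Z).filter Nat.Prime, (1 + GG K p / ((p : ℝ) - 1)) - 1) +
      4 * Real.log X ^ 2 * ((X : ℝ) / W + 1) * (X / (√(W : ℝ) * √√(X : ℝ))) *
        (∏ p ∈ (Ioc z Z).filter Nat.Prime, (1 + GG K p / √(p : ℝ))) +
      4 * Real.log X ^ 2 * ((X : ℝ) / W + 1) * ∏ p ∈ (Ioc z Z).filter Nat.Prime, (1 + GG K p) := by
  set P := (Ioc z Z).filter Nat.Prime with hP
  have hPm : ∀ p ∈ P, 6 ≤ p := by
    intro p hp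
    rw [hP, mem_filter, mem_Ioc] at hp
    omega
  have g1 : ∏ p ∈ P, (1 + GG K p / ((p : ℝ) - 1)) - 1 =
      ∑ E ∈ P.powerset.erase ∅, ∏ p ∈ E, GG K p / ((p : ℝ) - 1) := by
    rw [prod_one_add, ← add_sum_erase _ _ (empty_mem_powerset P), prod_empty]
    ring
  have g2 : ∑ E ∈ P.powerset.erase ∅, ∏ p ∈ E, GG K p / √(p : ℝ) ≤
      ∏ p ∈ P, (1 + GG K p / √(p : ℝ)) := by
    rw [prod_one_add]
    refine sum_le_sum_of_subset_of_nonneg (erase_subset _ _) fun E hE _ => prod_nonneg fun p hp => ?_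
    have := GG_nonneg (K := K) (p := p) (by have := hPm p (mem_powerset.1 hE hp); omega)
    positivity
  have g3 : ∑ E ∈ P.powerset.erase ∅, ∏ p ∈ E, GG K p ≤
      ∏ p ∈ P, (1 + GG K p) := by
    rw [prod_one_add]
    refine sum_le_sum_of_subset_of_nonneg (erase_subset _ _) fun E hE _ => prod_nonneg fun p hp => ?_
    exact GG_nonneg (K := K) (p := p) (by have := hPm p (mem_powerset.1 hE hp); omega)
  rw [g1]
  calc _ ≤ ∑ E ∈ P.powerset.erase ∅, (B ^ 2 * ((X : ℝ) / Nat.totient W) ^ 2 * (∏ p ∈ E, GG K p / ((p : ℝ) - 1)) +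
    4 * Real.log X ^ 2 * ((X : ℝ) / W + 1) * (X / (√(W : ℝ) * √√(X : ℝ))) *
      (∏ p ∈ E, GG K p / √(p : ℝ)) +
    4 * Real.log X ^ 2 * ((X : ℝ) / W + 1) * ∏ p ∈ E, GG K p) := by
        refine sum_le_sum fun E hE => ?_
        rw [mem_erase, mem_powerset] at hE
        exact term_le z X Z K hco B hz hX2 hB0 hB c d E hE.2
    _ = B ^ 2 * ((X : ℝ) / Nat.totient W) ^ 2 * ∑ E ∈ P.powerset.erase ∅, (∏ p ∈ E, GG K p / ((p : ℝ) - 1)) +
    4 * Real.log X ^ 2 * ((X : ℝ) / W + 1) * (X / (√(W : ℝ) * √√(X : ℝ))) *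
      ∑ E ∈ P.powerset.erase ∅, (∏ p ∈ E, GG K p / √(p : ℝ)) +
    4 * Real.log X ^ 2 * ((X : ℝ) / W + 1) * ∑ E ∈ P.powerset.erase ∅, ∏ p ∈ E, GG K p := by
        rw [sum_add_distrib, sum_add_distrib, ← mul_sum, ← mul_sum, ← mul_sum]
    _ ≤ _ := by gcongr

theorem small_X (z K C : ℕ) (hz : 60 ≤ z) (hK : 8 * K ≤ z) (hC : 1 ≤ C) :
    ¬ (Real.exp (C * z) * Real.log ((2 : ℕ) : ℝ) ^ (C * (K + 1)) ≤ ((2 : ℕ) : ℝ)) := by
  intro hX
  have hz0 : (60 : ℝ) ≤ z := by exact_mod_cast hz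
  have h1 : (1 / 2 : ℝ) ≤ Real.log ((2 : ℕ) : ℝ) := by
    push_cast
    linarith [Real.log_two_gt_d9]
  have h2 : Real.exp (C * z) * Real.log ((2 : ℕ) : ℝ) ^ (C * (K + 1)) =
      (Real.exp z * Real.log ((2 : ℕ) : ℝ) ^ (K + 1)) ^ C := by
    rw [mul_pow, ← Real.exp_nat_mul, ← pow_mul, mul_comm (K + 1) C]
  have h3 : (2 : ℝ) < Real.exp z * Real.log ((2 : ℕ) : ℝ) ^ (K + 1) := by
    have h4 : (2 : ℝ) ^ z ≤ Real.exp z := by
      have h5 : Real.exp (z : ℝ) = Real.exp 1 ^ z := by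
        rw [← Real.exp_nat_mul]
        congr 1
        ring
      rw [h5]
      have h6 : (2 : ℝ) ≤ Real.exp 1 := by linarith [Real.exp_one_gt_d9]
      gcongr
    have h5 : (1 / 2 : ℝ) ^ (z - 2) ≤ Real.log ((2 : ℕ) : ℝ) ^ (K + 1) := by
      calc (1 / 2 : ℝ) ^ (z - 2) ≤ (1 / 2 : ℝ) ^ (K + 1) :=
            pow_le_pow_of_le_one (by norm_num) (by norm_num) (by omega)
        _ ≤ _ := by gcongr
    have h6 : (2 : ℝ) ^ z * (1 / 2 : ℝ) ^ (z - 2) = 4 := by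
      obtain ⟨y, rfl⟩ : ∃ y, z = y + 2 := ⟨z - 2, by omega⟩
      rw [Nat.add_sub_cancel, pow_add, mul_right_comm, ← mul_pow]
      norm_num
    calc (2 : ℝ) < 4 := by norm_num
      _ = (2 : ℝ) ^ z * (1 / 2 : ℝ) ^ (z - 2) := h6.symm
      _ ≤ _ := mul_le_mul h4 h5 (by positivity) (by positivity)
  rw [h2] at hX
  have h4 : (2 : ℝ) < (Real.exp z * Real.log ((2 : ℕ) : ℝ) ^ (K + 1)) ^ C := by
    calc (2 : ℝ) < Real.exp z * Real.log ((2 : ℕ) : ℝ) ^ (K + 1) := h3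
      _ ≤ _ := le_self_pow₀ (by linarith) (by omega)
  push_cast at hX h4
  linarith

end Pool.Agent.Q150.PQ

namespace Pool.Agent.Q145.PQ

open Finset Filter
open Pool.Agent.Q145.SZ
open Pool.Agent.Q145.LS (uni th)
open Pool.Agent.Q145.LQ (JP)
open Pool.Agent.Q18.LS (wt_nn wt_le2 totient_prod PW_coprime PW_le_exp numeric)
open Pool.Agent.Q150.PQ (GG g0 SQ SQ_one total_le sum_E small_X F1 F2 F3)

theorem t_JPB : S_JPB := by
  rintro ⟨B, X₀, hB0, hBT⟩ ⟨C', hC', hSQ⟩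
  obtain ⟨C₂, hC₂⟩ := Pool.Agent.Helper256.KM.mertens_inv
  have hev : ∀ᶠ z : ℕ in atTop, 60 ≤ z ∧ X₀ ≤ z ∧ 1 ≤ Real.log z ∧
      C' ≤ Real.log z ∧ C₂ ≤ Real.log (2 * (z : ℝ)) := by
    have h1 : Tendsto (fun z : ℕ => Real.log z) atTop atTop :=
      Real.tendsto_log_atTop.comp tendsto_natCast_atTop_atTop
    have h2 : Tendsto (fun z : ℕ => Real.log (2 * (z : ℝ))) atTop atTop :=
      Real.tendsto_log_atTop.comp (tendsto_natCast_atTop_atTop.const_mul_atTop two_pos)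
    filter_upwards [eventually_ge_atTop 60, eventually_ge_atTop X₀, h1.eventually_ge_atTop 1,
      h1.eventually_ge_atTop C', h2.eventually_ge_atTop C₂] with z a b c d e
    exact ⟨a, b, c, d, e⟩
  obtain ⟨z₀, hz₀⟩ := hev.exists_forall_of_atTop
  obtain ⟨C, hC⟩ : ∃ C : ℕ, C = ⌈16 + 4 * C' + 2 * B ^ 2 * C' + 2⌉₊ + 64 := ⟨_, rfl⟩
  have hBC : 0 ≤ B ^ 2 * C' := by positivity
  have hCr : 16 + 4 * C' + 2 * B ^ 2 * C' + 2 ≤ (C : ℝ) := by
    rw [hC]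
    push_cast
    linarith [Nat.le_ceil (16 + 4 * C' + 2 * B ^ 2 * C' + 2)]
  have hC64 : 64 ≤ C := by omega
  refine ⟨C, z₀, by omega, ?_⟩
  intro z Y K hz hK hY c _ d _
  obtain ⟨hz60, hzX, hlog1, hlogC, hlogC2⟩ := hz₀ z hz
  have hz60r : (60 : ℝ) ≤ z := by exact_mod_cast hz60
  have hW0 : (0 : ℝ) < PW z := by exact_mod_cast Nat.pos_of_ne_zero (NeZero.ne (PW z))
  have hW1 : (1 : ℝ) ≤ PW z := by exact_mod_cast Nat.pos_of_ne_zero (NeZero.ne (PW z))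
  have hlog0 : 0 < Real.log z := by linarith
  have hth : ∀ x : ZMod (PW z), 0 ≤ th Y x := fun x => sum_nonneg fun n _ => wt_nn n
  have hrhs : 0 ≤ th Y c * th Y d + ((Y : ℝ) / Nat.totient (PW z)) ^ 2 * (C / Real.log z) := by
    have := hth c
    have := hth d
    positivity
  rcases le_or_gt Y 1 with hY1 | hY1
  · refine le_trans (le_of_eq ?_) hrhs
    refine sum_eq_zero fun n hn => sum_eq_zero fun m hm => ?_
    exfalso
    rw [mem_filter, mem_Ioc] at hn hm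
    exact hm.2.2 (by omega)
  rcases Nat.lt_or_ge Y 3 with hY3 | hY3
  · exfalso
    have hY2 : Y = 2 := by omega
    subst hY2
    exact small_X z K C hz60 hK (by omega) hY
  set L := Real.log Y with hL
  have hY0 : (0 : ℝ) < Y := by exact_mod_cast (show 0 < Y by omega)
  have hL1 : 1 ≤ L := by
    rw [hL, Real.le_log_iff_exp_le hY0]
    have : (3 : ℝ) ≤ Y := by exact_mod_cast hY3
    linarith [Real.exp_one_lt_d9]
  have hC2 : (2 : ℝ) ≤ C := by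
    have : (64 : ℝ) ≤ C := by exact_mod_cast hC64
    linarith
  have hYe : Real.exp (2 * (z : ℝ)) ≤ Y := by
    refine le_trans ?_ hY
    calc Real.exp (2 * (z : ℝ)) ≤ Real.exp (C * z) := Real.exp_le_exp.2 (by nlinarith)
      _ ≤ _ := le_mul_of_one_le_right (by positivity) (one_le_pow₀ hL1)
  have hLz : 2 * (z : ℝ) ≤ L := by
    rw [hL, Real.le_log_iff_exp_le hY0]
    exact hYe
  have hX₀ : X₀ ≤ Y := by
    have h1 : (z : ℝ) ≤ Y := by
      refine le_trans ?_ hYe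
      have := Real.add_one_le_exp (2 * (z : ℝ))
      linarith
    have h2 : z ≤ Y := by exact_mod_cast h1
    omega
  -- the range of the primes
  obtain ⟨Z, hZ⟩ : ∃ Z : ℕ, Z = 4 * Y ^ 2 := ⟨_, rfl⟩
  have hYZ : Y ≤ Z := by
    rw [hZ]
    nlinarith
  have hlZ : Real.log Z ≤ L ^ 2 := by
    have h1 : Real.log Z = Real.log 4 + 2 * L := by
      rw [hZ]
      push_cast
      rw [Real.log_mul (by norm_num) (by positivity), Real.log_pow]
      push_cast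
      rfl
    have h4 : Real.log 4 ≤ 2 := by
      have : Real.log 4 = 2 * Real.log 2 := by
        rw [show (4 : ℝ) = 2 ^ 2 by norm_num, Real.log_pow]
        norm_num
      rw [this]
      linarith [Real.log_two_lt_d9]
    nlinarith
  have hlZ' : L ≤ Real.log Z := Real.log_le_log hY0 (by exact_mod_cast hYZ)
  have hloglog : C₂ ≤ Real.log (Real.log Z) := hlogC2.trans (Real.log_le_log (by linarith) (hLz.trans hlZ'))
  have hM : ∑ p ∈ (Icc 1 Z).filter Nat.Prime, 1 / (p : ℝ) ≤ Real.log (Real.log Z) + C₂ := by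
    have := (abs_le.1 (hC₂ Z (by omega))).2
    linarith
  have hf1 := F1 z Z K (by omega) hK hC' hlogC (hSQ z Z (by omega)).1
  have hf2 := F2 z Z K (by omega) hK hC' (hSQ z Z (by omega)).2
  have hf3 := F3 z Z K (by omega) hK hM hloglog (by linarith)
  have hf3' : ∏ p ∈ (Ioc z Z).filter Nat.Prime, (1 + GG K p) ≤ L ^ (4 * (4 * K)) := by
    refine hf3.trans ?_
    have h1 : 0 ≤ Real.log Z := by linarith
    calc Real.log Z ^ (8 * K) ≤ (L ^ 2) ^ (8 * K) := pow_le_pow_left₀ h1 hlZ _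
      _ = L ^ (4 * (4 * K)) := by
          rw [← pow_mul]
          congr 1
          ring
  have hzL : Real.log z ≤ L := by
    have := Real.log_le_self (show (0 : ℝ) ≤ z by linarith)
    linarith
  have hB := fun q hq hqX r => hBT Y q hX₀ hq hqX r
  rw [total_le z Y K c d, ← hZ]
  rw [← add_sum_erase _ _ (empty_mem_powerset ((Ioc z Z).filter Nat.Prime))]
  rw [prod_empty, prod_empty, one_mul]
  have hSE1 := SQ_one Y c d
  have hsum := sum_E z Y Z K (PW_coprime z) B (by omega) (by omega) hB0.le hB c d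
  rw [← hL] at hsum
  set φ : ℝ := (Nat.totient (PW z) : ℝ) with hφ
  have hφ0 : 0 < φ := by
    rw [hφ]
    exact_mod_cast Nat.totient_pos.2 (Nat.pos_of_ne_zero (NeZero.ne (PW z)))
  have hφW : φ ≤ PW z := by
    rw [hφ]
    exact_mod_cast Nat.totient_le (PW z)
  have hnum := numeric z Y (4 * K) C' (PW z) φ L (Real.log z) (by omega) hC' hW1 hφ0 hφW (PW_le_exp z) hL1
    hlog1 hzL C (by nlinarith) (by
      refine le_trans ?_ hY
      refine mul_le_mul_of_nonneg_left (pow_le_pow_right₀ hL1 ?_) (by positivity)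
      nlinarith)
  have hm1 : B ^ 2 * ((Y : ℝ) / φ) ^ 2 * (∏ p ∈ (Ioc z Z).filter Nat.Prime, (1 + GG K p / ((p : ℝ) - 1)) - 1) ≤
      B ^ 2 * ((Y : ℝ) / φ) ^ 2 * (2 * C' / Real.log z) := by gcongr
  have hm2 : 4 * L ^ 2 * ((Y : ℝ) / PW z + 1) * (Y / (√(PW z : ℝ) * √√(Y : ℝ))) *
        (∏ p ∈ (Ioc z Z).filter Nat.Prime, (1 + GG K p / √(p : ℝ))) ≤
      4 * L ^ 2 * ((Y : ℝ) / PW z + 1) * (Y / (√(PW z : ℝ) * √√(Y : ℝ))) * Real.exp (C' * z) := by gcongr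
  have hm3 : 4 * L ^ 2 * ((Y : ℝ) / PW z + 1) * ∏ p ∈ (Ioc z Z).filter Nat.Prime, (1 + GG K p) ≤
      4 * L ^ 2 * ((Y : ℝ) / PW z + 1) * L ^ (4 * (4 * K)) := by gcongr
  have hfin : B ^ 2 * ((Y : ℝ) / φ) ^ 2 * (2 * C' / Real.log z) + ((Y : ℝ) / φ) ^ 2 * (2 / Real.log z) ≤
      ((Y : ℝ) / φ) ^ 2 * (C / Real.log z) := by
    have e1 : B ^ 2 * ((Y : ℝ) / φ) ^ 2 * (2 * C' / Real.log z) + ((Y : ℝ) / φ) ^ 2 * (2 / Real.log z) =
        ((Y : ℝ) / φ) ^ 2 * ((2 * B ^ 2 * C' + 2) / Real.log z) := by ring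
    rw [e1]
    have : 2 * B ^ 2 * C' + 2 ≤ C := by linarith
    gcongr
  linarith

end Pool.Agent.Q145.PQ
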